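import Pool.Agent.Y18.LC.Stm

/-! LC-NSP: an element whose multiples divide powers has no zero at a nonsplit prime -/

set_option autoImplicit false
set_option linter.all false

namespace Pool.Agent.Y447.LC

open NumberField IsDedekindDomain

/-- the multipliers which make `a` integral -/
def mulI (k : Type) [Field k] [NumberField k] (a : k) : Ideal (𝓞 k) where
  carrier := {r | IsIntegral ℤ ((r : k) * a)}
  add_mem' := by
    intro r s hr hs
    simp only [Set.mem_ofPred_eq] at hr hs ⊢
    have : ((r + s : 𝓞 k) : k) * a = r * a + s * a := by push_cast; ring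
    rw [this]; exact hr.add hs
  zero_mem' := by
    simp only [Set.mem_ofPred_eq]
    have : ((0 : 𝓞 k) : k) * a = 0 := by push_cast; ring
    rw [this]; exact isIntegral_zero
  smul_mem' := by
    intro c r hr
    simp only [Set.mem_ofPred_eq, smul_eq_mul] at hr ⊢
    have : ((c * r : 𝓞 k) : k) * a = c * (r * a) := by push_cast; ring
    rw [this]; exact (RingOfIntegers.isIntegral_coe c).mul hr

theorem val_int_le {k : Type} [Field k] [NumberField k] (v : HeightOneSpectrum (𝓞 k)) {t : k}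
    (ht : IsIntegral ℤ t) : v.valuation k t ≤ 1 :=
  v.valuation_le_one (⟨t, ht⟩ : 𝓞 k)

theorem mem_mulI {k : Type} [Field k] [NumberField k] {a : k} {r : 𝓞 k} :
    r ∈ mulI k a ↔ IsIntegral ℤ ((r : k) * a) := Iff.rfl

theorem nsp : Pool.Agent.Y18.LC.NSP := by
  intro k _ _ q hq v hqv huniq a n h
  by_contra hlt
  push Not at hlt
  have hqI : Prime (q : ℤ) := Nat.prime_iff_prime_int.1 hq
  -- an integral multiple by an integer prime to `q`
  obtain ⟨s, hsI, hsq⟩ : ∃ s : ℤ, IsIntegral ℤ ((s : k) * a) ∧ ¬ (q : ℤ) ∣ s := by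
    by_contra hcon
    push Not at hcon
    haveI hpr : (Ideal.span {(q : ℤ)}).IsPrime := (Ideal.span_singleton_prime hqI.ne_zero).2 hqI
    have hle : (mulI k (a : k)).comap (algebraMap ℤ (𝓞 k)) ≤ Ideal.span {(q : ℤ)} := by
      intro s hs
      rw [Ideal.mem_span_singleton]
      apply hcon
      rw [Ideal.mem_comap, mem_mulI] at hs
      simpa using hs
    obtain ⟨Q, hQI, hQp, hQc⟩ := Ideal.exists_ideal_over_prime_of_isIntegral (Ideal.span {(q : ℤ)})
      (mulI k (a : k)) hle
    have hqQ : (q : 𝓞 k) ∈ Q := by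
      have h1 : (q : ℤ) ∈ Q.comap (algebraMap ℤ (𝓞 k)) := by
        rw [hQc]; exact Ideal.mem_span_singleton_self _
      rw [Ideal.mem_comap] at h1
      simpa using h1
    have hQ0 : Q ≠ ⊥ := by
      rintro rfl
      rw [Ideal.mem_bot] at hqQ
      exact hq.ne_zero (by exact_mod_cast hqQ)
    have hv' := huniq ⟨Q, hQp, hQ0⟩ hqQ
    have hIv : mulI k (a : k) ≤ v.asIdeal := by
      rw [← hv']; exact hQI
    obtain ⟨m, d, hmd⟩ := v.exists_primeCompl_mul_eq_of_integer (a : k) hlt.le
    have hd : (d : 𝓞 k) ∈ mulI k (a : k) := by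
      rw [mem_mulI]
      have h2 : ((d : 𝓞 k) : k) * (a : k) = algebraMap (𝓞 k) k m := by
        rw [mul_comm]; exact hmd
      rw [h2]
      exact RingOfIntegers.isIntegral_coe m
    exact d.2 (hIv hd)
  have hs0 : s ≠ 0 := by
    rintro rfl
    exact hsq (dvd_zero _)
  have hsv : ((s : ℤ) : 𝓞 k) ∉ v.asIdeal := by
    intro hs
    have hcop : IsCoprime (q : ℤ) s := (Prime.coprime_iff_not_dvd hqI).2 hsq
    obtain ⟨x, y, hxy⟩ := hcop
    apply v.isPrime.ne_top
    rw [Ideal.eq_top_iff_one]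
    have h1 : (1 : 𝓞 k) = (x : 𝓞 k) * (q : 𝓞 k) + (y : 𝓞 k) * (s : 𝓞 k) := by
      have := congrArg (fun z : ℤ => (z : 𝓞 k)) hxy
      push_cast at this
      exact this.symm
    rw [h1]
    exact Ideal.add_mem _ (Ideal.mul_mem_left _ _ hqv) (Ideal.mul_mem_left _ _ hs)
  have hvs : v.valuation k (s : k) = 1 := by
    have h1 := (HeightOneSpectrum.valuation_eq_one_iff_notMem (K := k) (v := v)
      (r := ((s : ℤ) : 𝓞 k))).2 hsv
    simpa using h1
  have ha0 : (a : k) ≠ 0 := a.ne_zero
  have hsk : (s : k) ≠ 0 := by exact_mod_cast hs0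
  have h3 := val_int_le v (h s hs0 hsI)
  have h4 : v.valuation k ((s : k) ^ n / ((s : k) * a)) * v.valuation k (a : k) = 1 := by
    have h5 : (s : k) ^ n / ((s : k) * a) * (a : k) = (s : k) ^ n / (s : k) := by
      field_simp
    rw [← map_mul, h5, map_div₀, map_pow, hvs, one_pow, div_one]
  have h6 := mul_lt_mul_of_le_of_lt_of_nonneg_of_pos h3 hlt (by simp) (by simp)
  rw [h4] at h6
  simp at h6

end Pool.Agent.Y447.LC
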