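import Pool.Agent.Y18.LC.Stm

/-! LC-NRM: two facts on norms -/

set_option autoImplicit false
set_option linter.all false

namespace Pool.Agent.Y447.LC

open NumberField

theorem nrm : Pool.Agent.Y18.LC.NRM := by
  intro F _ _ F₀
  constructor
  · intro y hy hy0
    classical
    let E := AlgebraicClosure F
    have h1 := Algebra.norm_eq_prod_embeddings F₀ E y
    let σ₀ : F →ₐ[F₀] E := IsScalarTower.toAlgHom F₀ F E
    rw [← Finset.mul_prod_erase Finset.univ (fun σ : F →ₐ[F₀] E => σ y) (Finset.mem_univ σ₀)] at h1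
    have h2 : IsIntegral ℤ (∏ σ ∈ (Finset.univ : Finset (F →ₐ[F₀] E)).erase σ₀, σ y) := by
      refine IsIntegral.prod _ fun σ _ => ?_
      exact hy.map ((σ : F →+* E).toIntAlgHom)
    have h3 : algebraMap F E (algebraMap F₀ F (Algebra.norm F₀ y) / y) =
        ∏ σ ∈ (Finset.univ : Finset (F →ₐ[F₀] E)).erase σ₀, σ y := by
      rw [map_div₀, ← IsScalarTower.algebraMap_apply, h1]
      have h4 : σ₀ y = algebraMap F E y := rfl
      have h5 : algebraMap F E y ≠ 0 := by
        rw [Ne, map_eq_zero]; exact hy0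
      rw [h4, mul_div_cancel_left₀ _ h5]
    rw [← h3] at h2
    exact (isIntegral_algebraMap_iff (algebraMap F E).injective).1 h2
  · intro g hg y
    let f : F₀ →+* F₀ := ((g : F →+* F).comp (algebraMap F₀ F)).codRestrict F₀.toSubfield
      (fun x => hg x x.2)
    have hf : ∀ x : F₀, algebraMap F₀ F (f x) = g (algebraMap F₀ F x) := fun x => rfl
    have hb : Function.Bijective f := by
      have := AlgHom.bijective (f.toRatAlgHom)
      exact this
    let e₁ : F₀ ≃+* F₀ := RingEquiv.ofBijective f hb
    have h1 := Algebra.norm_eq_of_equiv_equiv e₁ g (by ext x; exact hf x) y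
    rw [h1, ← hf]
    congr 1
    exact (e₁.apply_symm_apply _).symm

end Pool.Agent.Y447.LC
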