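import Pool.Agent.Y18.LC.Stm

/-! LC-SUB: the number of the subgroups of index `p` -/

set_option autoImplicit false
set_option linter.all false

namespace Pool.Agent.Y447.LC

open Finset

theorem ker_index {p : ℕ} (hp : p.Prime) {m : ℕ} {P : Type} [CommGroup P] [Fintype P]
    (hexp : ∀ g : P, g ^ p = 1) (hcard : Fintype.card P = p ^ m) (χ : P →* ℂˣ) (hχ : χ ≠ 1) :
    χ.ker.index = p := by
  classical
  haveI : NeZero p := ⟨hp.ne_zero⟩
  have h1 : χ.ker.index ∣ p ^ m := by
    rw [← hcard, ← Nat.card_eq_fintype_card]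
    exact Subgroup.index_dvd_card _
  obtain ⟨k, -, hk⟩ := (Nat.dvd_prime_pow hp).1 h1
  have h2 : χ.ker.index ≤ p := by
    rw [Subgroup.index_ker]
    have h3 : χ.range ≤ rootsOfUnity p ℂ := by
      rintro _ ⟨g, rfl⟩
      rw [mem_rootsOfUnity, ← map_pow, hexp, map_one]
    calc Nat.card χ.range ≤ Nat.card (rootsOfUnity p ℂ) := Subgroup.card_le_of_le h3
      _ ≤ p := card_rootsOfUnity _ _
  have h4 : χ.ker.index ≠ 1 := by
    intro h
    rw [Subgroup.index_eq_one] at h
    apply hχ
    ext g
    have : g ∈ χ.ker := by rw [h]; trivial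
    rw [MonoidHom.mem_ker] at this
    rw [this]; rfl
  rw [hk] at h2 h4 ⊢
  have hk1 : k ≤ 1 := by
    by_contra h
    push Not at h
    have : p ^ 2 ≤ p ^ k := Nat.pow_le_pow_right hp.pos h
    have h5 := hp.one_lt
    nlinarith
  interval_cases k
  · exact absurd rfl h4
  · exact pow_one p

theorem card_ge {P : Type} [CommGroup P] [Fintype P] (H : Subgroup P) :
    Nat.card {χ : P →* ℂˣ // H ≤ χ.ker} = H.index := by
  classical
  have h1 := CommGroup.card_domRestrictHom_ker (G := P) ℂ H
  rw [Subgroup.index_eq_card, ← h1]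
  refine Nat.card_congr (Equiv.subtypeEquivRight fun χ => ?_)
  rw [MonoidHom.mem_ker, MonoidHom.domRestrictHom_apply, MonoidHom.domRestrict_eq_one_iff]
  constructor
  · intro h g hg
    exact h hg
  · intro h g hg
    exact h g hg

theorem sub : Pool.Agent.Y18.LC.SUB := by
  intro p _ m P _ _ hexp hcard
  classical
  have hp : p.Prime := Fact.out
  have hX : Nat.card (P →* ℂˣ) = p ^ m := by
    rw [CommGroup.card_monoidHom_of_hasEnoughRootsOfUnity, Nat.card_eq_fintype_card, hcard]
  haveI : Finite (P →* ℂˣ) := Nat.finite_of_card_ne_zero (by rw [hX]; exact pow_ne_zero _ hp.ne_zero)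
  haveI : Fintype (P →* ℂˣ) := Fintype.ofFinite _
  haveI : Finite (Subgroup P) := inferInstance
  haveI : Fintype (Subgroup P) := Fintype.ofFinite _
  have h1 := Finset.card_eq_sum_card_fiberwise (s := (univ : Finset (P →* ℂˣ)).erase 1)
    (t := (univ : Finset (Subgroup P)).filter fun H => H.index = p) (f := fun χ => χ.ker)
    (fun χ hχ => by
      rw [Finset.mem_coe, Finset.mem_erase] at hχ
      rw [Finset.mem_coe, Finset.mem_filter]
      exact ⟨Finset.mem_univ _, ker_index hp hexp hcard χ hχ.1⟩)
  have h2 : ∀ H ∈ (univ : Finset (Subgroup P)).filter (fun H => H.index = p),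
      (((univ : Finset (P →* ℂˣ)).erase 1).filter fun χ => χ.ker = H).card = p - 1 := by
    intro H hH
    have hH' : H.index = p := (Finset.mem_filter.1 hH).2
    have h3 : (((univ : Finset (P →* ℂˣ)).erase 1).filter fun χ => χ.ker = H) =
        ((univ : Finset (P →* ℂˣ)).filter fun χ => H ≤ χ.ker).erase 1 := by
      ext χ
      rw [Finset.mem_filter, Finset.mem_erase, Finset.mem_erase, Finset.mem_filter]
      constructor
      · rintro ⟨⟨h4, h5⟩, h6⟩
        exact ⟨h4, Finset.mem_univ _, h6.ge⟩
      · rintro ⟨h4, -, h6⟩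
        refine ⟨⟨h4, Finset.mem_univ _⟩, ?_⟩
        have h7 := ker_index hp hexp hcard χ h4
        have h8 := Subgroup.relIndex_mul_index h6
        rw [hH', h7] at h8
        have h9 : H.relIndex χ.ker = 1 := by
          have := hp.pos
          exact Nat.eq_of_mul_eq_mul_right this (by rw [h8, one_mul])
        rw [Subgroup.relIndex_eq_one] at h9
        exact le_antisymm h9 h6
    have h4 : (1 : P →* ℂˣ) ∈ (univ : Finset (P →* ℂˣ)).filter fun χ => H ≤ χ.ker := by
      rw [Finset.mem_filter]
      refine ⟨Finset.mem_univ _, fun g _ => ?_⟩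
      rw [MonoidHom.mem_ker]; rfl
    have h5 := card_ge H
    rw [Nat.card_eq_fintype_card, Fintype.card_subtype, hH'] at h5
    rw [h3, Finset.card_erase_of_mem h4, h5]
  rw [Finset.sum_congr rfl h2, Finset.sum_const, smul_eq_mul, Finset.card_erase_of_mem
    (Finset.mem_univ _), Finset.card_univ, ← Nat.card_eq_fintype_card, hX] at h1
  have h3 : Nat.card {H : Subgroup P // H.index = p} =
      ((univ : Finset (Subgroup P)).filter fun H => H.index = p).card := by
    rw [Nat.card_eq_fintype_card, Fintype.card_subtype]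
  rw [h3, ← h1]
  have h4 : 1 ≤ p ^ m := Nat.one_le_pow _ _ hp.pos
  omega

end Pool.Agent.Y447.LC
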