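import Pool.Agent.Y18.LC.Stm

/-! Galois theory of a composite `F = k F₀`, `F₀ / ℚ` Galois -/

set_option autoImplicit false
set_option linter.all false

namespace Pool.Agent.Y447.LC

open NumberField IntermediateField Polynomial

/-- the Galois property with the other algebra structure -/
theorem gal_alg {F : Type} [Field F] [NumberField F] (F₀ : IntermediateField ℚ F)
    (hG : IsGalois ℚ F₀) : @IsGalois ℚ _ F₀ _ (IntermediateField.algebra' F₀) := by
  have h : (IntermediateField.algebra' F₀ : Algebra ℚ F₀) = DivisionRing.toRatAlgebra :=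
    Subsingleton.elim _ _
  rw [h]
  exact hG

theorem gal_alg' {F : Type} [Field F] [NumberField F] (F₀ : IntermediateField ℚ F)
    (hG : @IsGalois ℚ _ F₀ _ (IntermediateField.algebra' F₀)) : IsGalois ℚ F₀ := by
  have h : (IntermediateField.algebra' F₀ : Algebra ℚ F₀) = DivisionRing.toRatAlgebra :=
    Subsingleton.elim _ _
  rw [h] at hG
  exact hG

variable {k F : Type} [Field k] [NumberField k] [Field F] [NumberField F] [Algebra k F]
  {F₀ : IntermediateField ℚ F}

theorem gal_comp (hG : IsGalois ℚ F₀) (htop : IntermediateField.adjoin k (F₀ : Set F) = ⊤) :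
    IsGalois k F := by
  haveI := gal_alg F₀ hG
  have hsp : ∃ T : ℚ[X], T.Separable ∧
      @Polynomial.IsSplittingField ℚ F₀ _ _ (IntermediateField.algebra' F₀) T :=
    @IsGalois.is_separable_splitting_field ℚ _ F₀ _ (IntermediateField.algebra' F₀) _
      (gal_alg F₀ hG)
  obtain ⟨T, hT₁, hT₂⟩ := hsp
  let T' := T.map (algebraMap ℚ k)
  suffices T'.IsSplittingField k F from IsGalois.of_separable_splitting_field (p := T') hT₁.map
  have hT₃ := (@isSplittingField_iff_intermediateField ℚ F₀ _ _ (IntermediateField.algebra' F₀) T).1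
    hT₂
  rw [isSplittingField_iff_intermediateField]
  constructor
  · rw [Polynomial.map_map, ← IsScalarTower.algebraMap_eq]
    exact Polynomial.Splits.of_algHom hT₃.1
      (@IsScalarTower.toAlgHom ℚ F₀ F _ _ _ (IntermediateField.algebra' F₀) _ _ _)
  · have h' : T'.rootSet F = T.rootSet F := by simp [Set.ext_iff, Polynomial.mem_rootSet', T']
    have h3 := hT₃.2
    rw [← lift_inj, lift_adjoin, ← coe_val, hT₃.1.image_rootSet, lift_top] at h3
    rw [h', eq_top_iff, ← htop, adjoin_le_iff]
    have h2 : F₀ ≤ (adjoin k (T.rootSet F)).restrictScalars ℚ := by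
      rw [← h3, adjoin_le_iff]
      exact subset_adjoin _ _
    exact h2

theorem map_mem (hG : IsGalois ℚ F₀) (g : F ≃ₐ[k] F) {x : F} (hx : x ∈ F₀) : g x ∈ F₀ := by
  haveI := gal_alg F₀ hG
  haveI : @Normal ℚ F₀ _ _ (IntermediateField.algebra' F₀) := IsGalois.to_normal
  have h1 := AlgEquiv.restrictNormalHom_apply F₀ (g.restrictScalars ℚ) ⟨x, hx⟩
  have h2 : ((AlgEquiv.restrictNormalHom F₀ (g.restrictScalars ℚ) ⟨x, hx⟩ : F₀) : F) = g x := h1
  rw [← h2]
  exact Subtype.property _

theorem ext_one (htop : IntermediateField.adjoin k (F₀ : Set F) = ⊤) {g : F ≃ₐ[k] F}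
    (h : ∀ x ∈ F₀, g x = x) : g = 1 := by
  ext x
  have hx : x ∈ IntermediateField.adjoin k (F₀ : Set F) := by rw [htop]; trivial
  show g x = x
  induction hx using IntermediateField.adjoin_induction with
  | mem x hx => exact h x hx
  | algebraMap x => exact g.commutes x
  | add x y _ _ hx hy => rw [map_add, hx, hy]
  | inv x _ hx => rw [map_inv₀, hx]
  | mul x y _ _ hx hy => rw [map_mul, hx, hy]

/-- restriction -/
noncomputable def res (k : Type) [Field k] [NumberField k] [Algebra k F]
    (F₀ : IntermediateField ℚ F) (hG : IsGalois ℚ F₀) : (F ≃ₐ[k] F) →* (F₀ ≃ₐ[ℚ] F₀) where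
  toFun g := AlgEquiv.ofRingEquiv (f :=
    { toFun := fun x => ⟨g x, map_mem hG g x.2⟩
      invFun := fun x => ⟨g⁻¹ x, map_mem hG g⁻¹ x.2⟩
      left_inv := fun x => Subtype.ext (g.symm_apply_apply x)
      right_inv := fun x => Subtype.ext (g.apply_symm_apply x)
      map_mul' := fun x y => Subtype.ext (map_mul g (x : F) (y : F))
      map_add' := fun x y => Subtype.ext (map_add g (x : F) (y : F)) })
    (fun r => by rw [eq_ratCast (algebraMap ℚ F₀) r, map_ratCast])
  map_one' := by ext x; rfl
  map_mul' g h := by ext x; rfl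

theorem res_apply (hG : IsGalois ℚ F₀) (g : F ≃ₐ[k] F) (x : F₀) :
    ((res k F₀ hG g x : F₀) : F) = g x := rfl

theorem res_inj (hG : IsGalois ℚ F₀) (htop : IntermediateField.adjoin k (F₀ : Set F) = ⊤) :
    Function.Injective (res k F₀ hG) := by
  rw [injective_iff_map_eq_one]
  intro g hg
  refine ext_one htop fun x hx => ?_
  have h1 := res_apply (k := k) hG g ⟨x, hx⟩
  rw [hg] at h1
  exact h1.symm

end Pool.Agent.Y447.LC
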