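import Pool.Agent.Y447.LC.Gal

/-! LC-FLD: Galois theory of the composite -/

set_option autoImplicit false
set_option linter.all false

namespace Pool.Agent.Y447.LC

open NumberField IntermediateField Module

theorem fld : Pool.Agent.Y18.LC.FLD := by
  intro p _ m k F _ _ _ _ _ F₀ hG hcomm hexp hfin htop hpk
  have hp : p.Prime := Fact.out
  haveI := hG
  haveI hGk : IsGalois k F := gal_comp hG htop
  have hinj := res_inj (k := k) hG htop
  haveI : FiniteDimensional k F := by
    haveI : FiniteDimensional ℚ F := inferInstance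
    exact FiniteDimensional.right ℚ k F
  haveI : FiniteDimensional ℚ F₀ := by
    apply FiniteDimensional.of_finrank_pos
    rw [hfin]
    exact pow_pos hp.pos m
  have hc0 : Nat.card (F₀ ≃ₐ[ℚ] F₀) = p ^ m := by
    rw [IsGalois.card_aut_eq_finrank, hfin]
  have hck : Nat.card (F ≃ₐ[k] F) = finrank k F := IsGalois.card_aut_eq_finrank k F
  have hdvd : Nat.card (F ≃ₐ[k] F) ∣ p ^ m := by
    rw [← hc0]
    exact Subgroup.card_dvd_of_injective (res k F₀ hG) hinj
  have hm1 : finrank ℚ k * finrank k F = finrank ℚ F := finrank_mul_finrank ℚ k F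
  have hm2 : finrank ℚ F₀ * finrank F₀ F = finrank ℚ F := finrank_mul_finrank ℚ F₀ F
  have hcop : Nat.Coprime (p ^ m) (finrank ℚ k) :=
    Nat.Coprime.pow_left _ ((Nat.Prime.coprime_iff_not_dvd hp).2 hpk)
  have hdvd2 : p ^ m ∣ finrank k F := by
    apply hcop.dvd_of_dvd_mul_left
    rw [hm1, ← hm2, hfin]
    exact Dvd.intro _ rfl
  have hcard : Nat.card (F ≃ₐ[k] F) = p ^ m := by
    apply Nat.dvd_antisymm hdvd
    rw [hck]; exact hdvd2
  have hfk : finrank k F = p ^ m := by rw [← hck, hcard]
  have hff : finrank F₀ F = finrank ℚ k := by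
    have h1 : p ^ m * finrank F₀ F = p ^ m * finrank ℚ k := by
      rw [← hfin, hm2, ← hm1, hfk, hfin, mul_comm]
    exact Nat.eq_of_mul_eq_mul_left (pow_pos hp.pos m) h1
  refine ⟨hGk, ?_, ?_, hcard, fun g x hx => map_mem hG g hx, by rw [hff]; exact hpk, ?_⟩
  · intro g h
    apply hinj
    rw [map_mul, map_mul, hcomm]
  · intro g
    apply hinj
    rw [map_pow, hexp, map_one]
  · intro H hH
    let r := res k F₀ hG
    let E₁ : IntermediateField ℚ F₀ := fixedField (H.map r)
    have hE₁ : finrank ℚ E₁ = p := by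
      have h1 : finrank E₁ F₀ = Nat.card (H.map r) := finrank_fixedField_eq_card _
      have h2 : finrank ℚ E₁ * finrank E₁ F₀ = finrank ℚ F₀ := finrank_mul_finrank ℚ E₁ F₀
      have h3 : Nat.card (H.map r) = Nat.card H := Nat.card_congr
        (Subgroup.equivMapOfInjective H r hinj).toEquiv.symm
      have h4 : Nat.card H * H.index = p ^ m := by rw [← hcard]; exact Subgroup.card_mul_index H
      rw [h1, h3, hfin, ← h4, hH, mul_comm] at h2
      haveI : Finite H := inferInstance
      exact Nat.eq_of_mul_eq_mul_left Nat.card_pos h2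
    have hmemE : ∀ x : F₀, x ∈ E₁ ↔ ∀ g ∈ H, g (x : F) = x := by
      intro x
      rw [mem_fixedField_iff]
      constructor
      · intro h g hg
        have h1 := h (r g) ⟨g, hg, rfl⟩
        have h2 := congrArg (fun z : F₀ => (z : F)) h1
        exact h2
      · rintro h _ ⟨g, hg, rfl⟩
        exact Subtype.ext (h g hg)
    let L₀ : IntermediateField ℚ F := F₀ ⊓ (fixedField H).restrictScalars ℚ
    have hmemL : ∀ x : F, x ∈ L₀ ↔ x ∈ F₀ ∧ ∀ g ∈ H, g x = x := by
      intro x
      constructor
      · intro hx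
        exact ⟨(mem_inf.1 hx).1, (mem_fixedField_iff H x).1 (mem_inf.1 hx).2⟩
      · rintro ⟨h1, h2⟩
        exact mem_inf.2 ⟨h1, (mem_fixedField_iff H x).2 h2⟩
    refine ⟨L₀, inf_le_left, ?_, ?_, ?_⟩
    · rw [← hE₁]
      let f : L₀ ≃+ E₁ :=
        { toFun := fun x => ⟨⟨x, ((hmemL x).1 x.2).1⟩, (hmemE _).2 ((hmemL x).1 x.2).2⟩
          invFun := fun x => ⟨x, (hmemL _).2 ⟨x.1.2, (hmemE _).1 x.2⟩⟩
          left_inv := fun x => rfl
          right_inv := fun x => rfl
          map_add' := fun x y => rfl }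
      let fl : L₀ ≃ₗ[ℚ] E₁ :=
        { f with map_smul' := fun c x => map_rat_smul f c x }
      exact fl.finrank_eq
    · -- the Galois correspondence
      have hle : adjoin k (L₀ : Set F) ≤ fixedField H := by
        rw [adjoin_le_iff]
        intro x hx
        exact (mem_fixedField_iff H x).2 ((hmemL x).1 hx).2
      have hfs : fixingSubgroup (adjoin k (L₀ : Set F)) ≤ H := by
        intro g hg
        rw [IntermediateField.mem_fixingSubgroup_iff] at hg
        have h1 : r g ∈ fixingSubgroup E₁ := by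
          rw [IntermediateField.mem_fixingSubgroup_iff]
          intro x hx
          apply Subtype.ext
          refine hg x (subset_adjoin _ _ ?_)
          exact (hmemL x).2 ⟨x.2, (hmemE x).1 hx⟩
        rw [fixingSubgroup_fixedField] at h1
        obtain ⟨g', hg', h2⟩ := h1
        rwa [← hinj h2]
      apply le_antisymm hle
      rw [← IsGalois.fixedField_fixingSubgroup (adjoin k (L₀ : Set F))]
      intro x hx
      rw [mem_fixedField_iff] at hx ⊢
      exact fun g hg => hx g (hfs hg)
    · intro x hx hfx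
      exact (hmemL x).2 ⟨hx, (mem_fixedField_iff H x).1 hfx⟩

end Pool.Agent.Y447.LC
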