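import Pool.Agent.Y447.LC.Gal

/-! LC-RAM: base change of unramified primes -/

set_option autoImplicit false
set_option linter.all false

namespace Pool.Agent.Y447.LC

open NumberField IsDedekindDomain Pool.Agent.Y18.LC

section

variable {K E : Type} [Field K] [NumberField K] [Field E] [NumberField E] [Algebra K E] [IsGalois K E]

theorem galGroup : IsGaloisGroup (E ≃ₐ[K] E) (𝓞 K) (𝓞 E) :=
  IsGaloisGroup.of_isFractionRing (E ≃ₐ[K] E) (𝓞 K) (𝓞 E) K E

theorem card_in (P : Ideal (𝓞 E)) [P.IsPrime] :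
    Nat.card (P.inertia (E ≃ₐ[K] E)) = P.ramificationIdx (𝓞 K) := by
  haveI := galGroup (K := K) (E := E)
  rw [Ideal.card_inertia_eq_ramificationIdxIn (G := E ≃ₐ[K] E) (P.under (𝓞 K)) P,
    Ideal.ramificationIdxIn_eq_ramificationIdx (P.under (𝓞 K)) P (E ≃ₐ[K] E)]

end

section

variable {E : Type} [Field E] [NumberField E] [IsGalois ℚ E]

theorem galGroup' : IsGaloisGroup (E ≃ₐ[ℚ] E) ℤ (𝓞 E) :=
  IsGaloisGroup.of_isFractionRing (E ≃ₐ[ℚ] E) ℤ (𝓞 E) ℚ E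

theorem card_in' (P : Ideal (𝓞 E)) [P.IsPrime] :
    Nat.card (P.inertia (E ≃ₐ[ℚ] E)) = P.ramificationIdx ℤ := by
  haveI := galGroup' (E := E)
  rw [Ideal.card_inertia_eq_ramificationIdxIn (G := E ≃ₐ[ℚ] E) (P.under ℤ) P,
    Ideal.ramificationIdxIn_eq_ramificationIdx (P.under ℤ) P (E ≃ₐ[ℚ] E)]

/-- the ramification index is one if `q` is unramified -/
theorem ram_one {q : ℕ} (hq : q.Prime) (hU : Unram E q) (P : Ideal (𝓞 E)) [P.IsPrime]
    (hqP : (q : 𝓞 E) ∈ P) : P.ramificationIdx ℤ = 1 := by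
  have hqI : Prime (q : ℤ) := Nat.prime_iff_prime_int.1 hq
  have hunder : P.under ℤ = Ideal.span {(q : ℤ)} := by
    have h1 : Ideal.span {(q : ℤ)} ≤ P.under ℤ := by
      rw [Ideal.span_singleton_le_iff_mem, Ideal.under_def, Ideal.mem_comap]
      simpa using hqP
    have h2 : (Ideal.span {(q : ℤ)}).IsMaximal :=
      PrincipalIdealRing.isMaximal_of_irreducible hqI.irreducible
    exact (h2.eq_of_le (Ideal.IsPrime.ne_top inferInstance) h1).symm
  have hne : P.under ℤ ≠ ⊥ := by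
    rw [hunder, Ne, Ideal.span_singleton_eq_bot]
    exact hqI.ne_zero
  have hmap : (P.under ℤ).map (algebraMap ℤ (𝓞 E)) = Ideal.span {(q : 𝓞 E)} := by
    rw [hunder, Ideal.map_span, Set.image_singleton]
    simp
  rw [← Ideal.ramificationIdx'_eq_ramificationIdx (P.under ℤ) P hne]
  by_contra hcon
  have hle : (P.under ℤ).map (algebraMap ℤ (𝓞 E)) ≤ P := Ideal.map_comap_le
  rw [← Ne, Ideal.ramificationIdx'_ne_one_iff hle, hmap, ← Ideal.dvd_iff_le] at hcon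
  obtain ⟨J, hJ⟩ := hcon
  have hq0 : Ideal.span {(q : 𝓞 E)} ≠ ⊥ := by
    rw [Ne, Ideal.span_singleton_eq_bot]
    exact_mod_cast hq.ne_zero
  have hPJ0 : P * J ≠ 0 := by
    intro h
    apply hq0
    rw [hJ, pow_two, mul_assoc, h, mul_zero]
    rfl
  have h3 : P * J ≤ Ideal.span {(q : 𝓞 E)} := by
    intro x hx
    apply hU
    refine ⟨2, ?_⟩
    have h4 : x ^ 2 ∈ (P * J) ^ 2 := Ideal.pow_mem_pow hx 2
    have h5 : (P * J) ^ 2 ≤ Ideal.span {(q : 𝓞 E)} := by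
      rw [hJ, mul_pow, pow_two J, ← mul_assoc]
      exact Ideal.mul_le_left (I := P ^ 2 * J) (J := J)
    exact h5 h4
  rw [← Ideal.dvd_iff_le, hJ, pow_two, mul_assoc] at h3
  obtain ⟨I, hI⟩ := h3
  have h6 : P * J * 1 = P * J * (P * I) := by
    rw [mul_one]
    calc P * J = P * (P * J) * I := hI
      _ = P * J * (P * I) := by ring
  have h7 := mul_left_cancel₀ hPJ0 h6
  have h8 : P ∣ 1 := ⟨I, h7⟩
  rw [Ideal.dvd_iff_le, Ideal.one_eq_top, top_le_iff] at h8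
  exact Ideal.IsPrime.ne_top inferInstance h8

end

theorem ram : Pool.Agent.Y18.LC.RAM := by
  intro k F _ _ _ _ _ F₀ hG htop q hq hU v hqv
  haveI := hG
  haveI : IsGalois k F := gal_comp hG htop
  obtain ⟨⟨w, hwp, hwv⟩⟩ : Nonempty (v.asIdeal.primesOver (𝓞 F)) := inferInstance
  have hqw : (q : 𝓞 F) ∈ w := by
    have h1 : (q : 𝓞 k) ∈ w.under (𝓞 k) := by rw [← hwv.over]; exact hqv
    rw [Ideal.under_def, Ideal.mem_comap] at h1
    simpa using h1
  have hw0 : w ≠ ⊥ := by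
    rintro rfl
    rw [Ideal.mem_bot] at hqw
    exact hq.ne_zero (by exact_mod_cast hqw)
  let W : HeightOneSpectrum (𝓞 F) := ⟨w, hwp, hw0⟩
  haveI : W.asIdeal.LiesOver v.asIdeal := hwv
  refine ⟨W, fun x => ?_⟩
  rw [← HeightOneSpectrum.valuation_liesOver F v W x]
  have hone : v.asIdeal.ramificationIdx' W.asIdeal = 1 := by
    rw [Ideal.ramificationIdx'_eq_ramificationIdx v.asIdeal W.asIdeal v.ne_bot]
    have h1 := card_in (K := k) (E := F) w
    show w.ramificationIdx (𝓞 k) = 1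
    rw [← h1]
    rw [Nat.card_eq_one_iff_unique]
    refine ⟨⟨?_⟩, ⟨1⟩⟩
    -- the inertia group is trivial
    let w₀ : Ideal (𝓞 F₀) := w.comap (algebraMap (𝓞 F₀) (𝓞 F))
    haveI : w₀.IsPrime := Ideal.comap_isPrime _ _
    have hqw₀ : (q : 𝓞 F₀) ∈ w₀ := by
      rw [Ideal.mem_comap]
      simpa using hqw
    have h2 := card_in' (E := F₀) w₀
    rw [ram_one hq hU w₀ hqw₀, Nat.card_eq_one_iff_unique] at h2
    have key : ∀ g : w.inertia (F ≃ₐ[k] F), (g : F ≃ₐ[k] F) = 1 := by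
      intro g
      have hg : res k F₀ hG (g : F ≃ₐ[k] F) ∈ w₀.inertia (F₀ ≃ₐ[ℚ] F₀) := by
        intro x
        have h3 := g.2 (algebraMap (𝓞 F₀) (𝓞 F) x)
        show algebraMap (𝓞 F₀) (𝓞 F) (res k F₀ hG (g : F ≃ₐ[k] F) • x - x) ∈ w
        have h4 : algebraMap (𝓞 F₀) (𝓞 F) (res k F₀ hG (g : F ≃ₐ[k] F) • x - x) =
            (g : F ≃ₐ[k] F) • (algebraMap (𝓞 F₀) (𝓞 F) x) - algebraMap (𝓞 F₀) (𝓞 F) x := by
          rw [map_sub]
          congr 1
        rw [h4]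
        exact h3
      have h5 : (⟨_, hg⟩ : w₀.inertia (F₀ ≃ₐ[ℚ] F₀)) = ⟨1, one_mem _⟩ := h2.1.elim _ _
      have h6 : res k F₀ hG (g : F ≃ₐ[k] F) = 1 := congrArg Subtype.val h5
      exact res_inj hG htop (by rw [h6, map_one])
    intro a b
    exact Subtype.ext ((key a).trans (key b).symm)
  rw [hone, pow_one]

end Pool.Agent.Y447.LC
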